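import Pool.Agent.Lib.MP_5e1226_co.Final

/-!
Toric lower bound theorem for Gorenstein* lattices: the coefficients `g_0, g_1, g_2` of the toric
g-polynomial are nonnegative in every rank, and all coefficients are nonnegative in rank at most 6.
-/

open Pool.Agent.Lib.MP_5e1226_co in
theorem Pool.Agent.Results.MP_5e1226_co.ToricLBT.result (k : Type) [Field k] (P : Type)
    [Lattice P] [BoundedOrder P] [Fintype P] [DecidableEq P] (ρ : P → ℕ) (hρ : IsRank ρ)
    (hG : GorensteinStar k P) (i : ℕ) (hi : i ≤ 2 ∨ ρ ⊤ ≤ 6) :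
    0 ≤ (toricG ρ ⊤).coeff i :=
  gorenstein_nonneg k P ρ hρ hG i hi
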